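import Pool.Agent.P.MP_d483fb_an.Main
import Pool.Agent.P.MP_d483fb_an.NSTMat

set_option autoImplicit false

open scoped Manifold ContDiff Matrix

namespace Pool.Agent.Results.MP_d483fb_an.OrthEuler

open Pool.Agent.P.MP_d483fb_an

theorem result (n : ℕ) (hn : 5 ≤ n) (Q : Matrix (Fin n) (Fin n) ℤ) (hQ : Q.IsSymm)
    (hdet : Q.det ≠ 0)
    (hiso : ∃ x y : Fin n → ℤ, LinearIndependent ℤ ![x, y] ∧ x ⬝ᵥ Q *ᵥ x = 0 ∧ x ⬝ᵥ Q *ᵥ y = 0 ∧
      y ⬝ᵥ Q *ᵥ y = 0)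
    (Γ : Subgroup (GL (Fin n) ℤ)) (hΓ : Γ ≤ orth Q) (hi : Γ.relIndex (orth Q) ≠ 0)
    (ℓ s : ℕ) (hℓ : ℓ.Prime) (he : 3 ≤ ℓ ^ s) (A : Subgroup (GL (Fin n) ℤ)) (hA : A ≤ Γ)
    (hfin : Finite A) (hc : ∀ a ∈ A, ∀ b ∈ A, a * b = b * a) (hexp : ∀ a ∈ A, a ^ ℓ ^ s = 1)
    (m : ℕ) (M : Type) [TopologicalSpace M] [T2Space M] [CompactSpace M] [ConnectedSpace M]
    [ChartedSpace (EuclideanSpace ℝ (Fin m)) M] [IsManifold (𝓡 m) ∞ M]
    (hχ : eulerChar M ≠ 0)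
    (hm : (ℓ ^ s) ^ m * (ℓ ^ padicValInt ℓ (eulerChar M) *
      Nat.card ↥(A ⊓ Subgroup.zpowers (-1))) ^ 2 < Nat.card A ^ 2)
    (α : Γ →* Equiv.Perm M) (hα : ∀ γ, ContMDiff (𝓡 m) (𝓡 m) ∞ (α γ)) :
    (Set.range α).Finite := by
  by_contra hinf
  let _ : CommGroup A := { (inferInstance : Group A) with
    mul_comm := fun a b => Subtype.ext (hc a a.2 b b.2) }
  let β : A →* Equiv.Perm M := α.comp (Subgroup.inclusion hA)
  have h1 := card_sq_le hℓ he (A := A) (fun a => Subtype.ext (hexp a a.2)) β (fun g => hα _) hχ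
  have h2 : ∀ g : β.ker, (g.1.1 : GL (Fin n) ℤ) ∈ A ⊓ Subgroup.zpowers (-1) := by
    intro g
    refine ⟨g.1.2, ?_⟩
    by_contra hg
    have hk : Subgroup.inclusion hA g.1 ∈ α.ker := g.2
    have := nst_matrix hn hQ hdet hiso hΓ hi α.ker hk
      (fun h => hg (by
        have h' : (g.1.1 : GL (Fin n) ℤ) = 1 := h
        rw [h']
        exact Subgroup.one_mem _))
      (fun h => hg (by
        have h' : (g.1.1 : GL (Fin n) ℤ) = -1 := h
        rw [h']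
        exact Subgroup.mem_zpowers _))
    have hf : Finite α.range :=
      Finite.of_equiv _ (QuotientGroup.quotientKerEquivRange α).toEquiv
    exact hinf (Set.toFinite (α.range : Set (Equiv.Perm M)))
  have hf : Finite ↥(A ⊓ Subgroup.zpowers (-1)) :=
    Finite.of_injective _ (Subgroup.inclusion_injective (inf_le_left : A ⊓ Subgroup.zpowers (-1) ≤ A))
  have h3 : Nat.card β.ker ≤ Nat.card ↥(A ⊓ Subgroup.zpowers (-1)) := by
    refine Nat.card_le_card_of_injective (fun g : β.ker => (⟨g.1.1, h2 g⟩ : ↥(A ⊓ _))) ?_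
    intro a b h
    have h' := congrArg Subtype.val h
    exact Subtype.ext (Subtype.ext h')
  refine absurd (h1.trans ?_) (not_le.2 hm)
  gcongr

end Pool.Agent.Results.MP_d483fb_an.OrthEuler
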