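import Pool.Agent.P.MP_d483fb_an.U.QMain
import Pool.Agent.P.MP_d483fb_an.U.MatC

set_option autoImplicit false

open scoped Manifold ContDiff Matrix Quaternion

namespace Pool.Agent.Results.MP_d483fb_an.UnitaryEuler

open Pool.Agent.P.MP_d483fb_an

theorem result (S : Set ℍ[ℤ]) (hS : S ⊆ {⟨0, 1, 0, 0⟩, ⟨0, 0, 1, 0⟩}) (n : ℕ) (hn : S = ∅ → 5 ≤ n)
    (Q : Matrix (Fin n) (Fin n) (StarAlgebra.adjoin ℤ S)) (hQ : Qᴴ = Q ∨ Qᴴ = -Q)
    (hnd : ∀ x, Q *ᵥ x = 0 → x = 0)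
    (hiso : ∃ x y : Fin n → StarAlgebra.adjoin ℤ S,
      (∀ a b, (∀ i, x i * a + y i * b = 0) → a = 0 ∧ b = 0) ∧
      star x ⬝ᵥ Q *ᵥ x = 0 ∧ star x ⬝ᵥ Q *ᵥ y = 0 ∧ star y ⬝ᵥ Q *ᵥ y = 0)
    (Γ : Subgroup (GL (Fin n) (StarAlgebra.adjoin ℤ S))) (hΓ : Γ ≤ isom Q)
    (hi : Γ.relIndex (isom Q) ≠ 0)
    (t k : ℕ) (ht : t ∣ 2) (φ : (Fin k → QuaternionGroup t) →* Γ)
    (m : ℕ) (M : Type) [TopologicalSpace M] [T2Space M] [CompactSpace M] [ConnectedSpace M]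
    [ChartedSpace (EuclideanSpace ℝ (Fin m)) M] [IsManifold (𝓡 m) ∞ M]
    (hχ : eulerChar M ≠ 0)
    (hm : 2 ^ m * (2 ^ padicValInt 2 (eulerChar M) *
      Nat.card ((Subgroup.center _).comap (Γ.subtype.comp φ)) ^ t) ^ t < 4 ^ (t * k))
    (α : Γ →* Equiv.Perm M) (hα : ∀ γ, ContMDiff (𝓡 m) (𝓡 m) ∞ (α γ)) :
    (Set.range α).Finite := by
  by_contra hinf
  have : NeZero t := ⟨fun h => by simp [h] at ht⟩
  have h1 := U.quat_le ht (α.comp φ) (fun g => hα _) hχ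
  have h2 : (α.comp φ).ker ≤ (Subgroup.center _).comap (Γ.subtype.comp φ) := by
    intro g hg
    by_contra hc
    have := U.nst_adjoin S hS hn hQ hnd hiso hΓ hi α.ker (d := φ g) hg hc
    have hf : Finite α.range :=
      Finite.of_equiv _ (QuotientGroup.quotientKerEquivRange α).toEquiv
    exact hinf (Set.toFinite (α.range : Set (Equiv.Perm M)))
  have h3 := Subgroup.card_le_of_le h2
  refine absurd (h1.trans ?_) (not_le.2 hm)
  gcongr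

end Pool.Agent.Results.MP_d483fb_an.UnitaryEuler
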